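import Mathlib

set_option autoImplicit false

open scoped ContDiff Real Topology RealInnerProductSpace
open Set Filter MeasureTheory InnerProductGeometry

namespace Pool.Agent.TH548.Fenchel

variable {E : Type} [NormedAddCommGroup E] [InnerProductSpace ℝ E]

lemma norm_sub_sq_of_unit {x y : E} (hx : ‖x‖ = 1) (hy : ‖y‖ = 1) :
    ‖x - y‖ = 2 * Real.sin (angle x y / 2) := by
  have h0 : 0 ≤ Real.sin (angle x y / 2) := by
    apply Real.sin_nonneg_of_nonneg_of_le_pi
    · have := angle_nonneg x y; positivity
    · have := angle_le_pi x y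
      have := Real.pi_pos
      linarith
  have h1 : ‖x - y‖ ^ 2 = (2 * Real.sin (angle x y / 2)) ^ 2 := by
    rw [@norm_sub_sq_real, hx, hy, ← cos_angle_mul_norm_mul_norm, hx, hy]
    have h2 : Real.cos (angle x y) = 1 - 2 * Real.sin (angle x y / 2) ^ 2 := by
      rw [show angle x y = 2 * (angle x y / 2) by ring, Real.cos_two_mul, Real.cos_sq']
      ring_nf
    rw [h2]
    ring
  exact (pow_left_inj₀ (norm_nonneg _) (by positivity) two_ne_zero).1 h1

/-- `α cos (α/2) ≤ ‖x - y‖` for the angle `α` of two unit vectors. -/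
lemma angle_mul_cos_le {x y : E} (hx : ‖x‖ = 1) (hy : ‖y‖ = 1) :
    angle x y * Real.cos (angle x y / 2) ≤ ‖x - y‖ := by
  rw [norm_sub_sq_of_unit hx hy]
  rcases eq_or_lt_of_le (angle_le_pi x y) with h | h
  · rw [h]
    simp
  · have h1 : 0 ≤ angle x y / 2 := by have := angle_nonneg x y; positivity
    have h2 : angle x y / 2 < π / 2 := by linarith
    have h3 := Real.le_tan h1 h2
    have h4 : 0 < Real.cos (angle x y / 2) :=
      Real.cos_pos_of_mem_Ioo ⟨by linarith [Real.pi_pos], h2⟩
    rw [Real.tan_eq_sin_div_cos, le_div_iff₀ h4] at h3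
    linarith

/-- The angle between the end points of a curve on the unit sphere is at most its length. -/
lemma angle_le_length {T T' : ℝ → E} (hT : ∀ t, HasDerivAt T (T' t) t) (hc : Continuous T')
    (h1 : ∀ t, ‖T t‖ = 1) {a b : ℝ} (hab : a ≤ b) :
    angle (T a) (T b) ≤ ∫ t in a..b, ‖T' t‖ := by
  have hTc : Continuous T := continuous_iff_continuousAt.2 fun t => (hT t).continuousAt
  have hne : ∀ t, T t ≠ 0 := fun t h => by
    have := h1 t
    rw [h, norm_zero] at this
    exact zero_ne_one this
  have hang : ∀ s : ℝ, Continuous fun t => angle (T s) (T t) := fun s =>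
    continuous_iff_continuousAt.2 fun t =>
      (continuousAt_angle (x := (T s, T t)) (hne s) (hne t)).comp
        (f := fun t => (T s, T t)) (continuousAt_const.prodMk hTc.continuousAt)
  have key := image_le_of_liminf_slope_right_le_deriv_boundary (f := fun t => angle (T a) (T t))
    (a := a) (b := b) (hang a).continuousOn (B := fun t => ∫ s in a..t, ‖T' s‖)
    (B' := fun t => ‖T' t‖) (by
      simp only [intervalIntegral.integral_same]
      rw [angle_self (hne a)])
    (Continuous.continuousOn (intervalIntegral.continuous_primitive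
      (fun c d => (hc.norm.intervalIntegrable c d)) a))
    (fun x _ => (intervalIntegral.integral_hasDerivAt_right (hc.norm.intervalIntegrable _ _)
      hc.norm.stronglyMeasurable.stronglyMeasurableAtFilter
      hc.norm.continuousAt).hasDerivWithinAt) (by
      intro x _ r hr
      apply Eventually.frequently
      -- the quotient of the distance by the cosine
      have h2 : Tendsto (fun z => ‖slope T x z‖ / Real.cos (angle (T x) (T z) / 2)) (𝓝[>] x)
          (𝓝 (‖T' x‖ / Real.cos (angle (T x) (T x) / 2))) := by
        refine Tendsto.div ?_ ?_ ?_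
        · have := (hasDerivAt_iff_tendsto_slope.1 (hT x)).norm
          exact this.mono_left (nhdsWithin_mono _ fun z (hz : x < z) => hz.ne')
        · have : Continuous fun z => Real.cos (angle (T x) (T z) / 2) :=
            Real.continuous_cos.comp ((hang x).div_const 2)
          exact this.continuousAt.tendsto.mono_left nhdsWithin_le_nhds
        · rw [angle_self (hne x)]
          simp
      rw [angle_self (hne x), zero_div, Real.cos_zero, div_one] at h2
      have h3 : ∀ᶠ z in 𝓝[>] x, angle (T x) (T z) < π := by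
        have : ∀ᶠ z in 𝓝 x, angle (T x) (T z) < π := by
          refine (hang x).continuousAt.eventually_lt continuousAt_const ?_
          rw [angle_self (hne x)]
          exact Real.pi_pos
        exact this.filter_mono nhdsWithin_le_nhds
      filter_upwards [h2.eventually_lt_const hr, h3, self_mem_nhdsWithin] with z hz hz3 hxz
      have hxz' : 0 < z - x := sub_pos.2 hxz
      have hcos : 0 < Real.cos (angle (T x) (T z) / 2) := by
        apply Real.cos_pos_of_mem_Ioo
        have := angle_nonneg (T x) (T z)
        exact ⟨by linarith [Real.pi_pos], by linarith⟩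
      refine lt_of_le_of_lt ?_ hz
      rw [slope_def_field, slope_def_module, norm_smul, norm_inv, Real.norm_of_nonneg hxz'.le,
        div_le_div_iff₀ hxz' hcos]
      have h4 := angle_mul_cos_le (h1 x) (h1 z)
      have h5 := angle_le_angle_add_angle (T a) (T x) (T z)
      have h6 : (z - x)⁻¹ * ‖T z - T x‖ * (z - x) = ‖T x - T z‖ := by
        rw [norm_sub_rev (T x)]
        field_simp
      rw [h6]
      refine le_trans ?_ h4
      gcongr
      linarith)
  exact key ⟨hab, le_rfl⟩

/-- **Fenchel's theorem.** A closed curve on the unit sphere of length less than `2π` cannot be the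
tangent indicatrix of a closed curve. -/
theorem fenchel {T T' : ℝ → E} (hT : ∀ t, HasDerivAt T (T' t) t) (hc : Continuous T')
    (h1 : ∀ t, ‖T t‖ = 1) {p : ℝ} (hp : 0 < p) (hper : T p = T 0) {ρ : ℝ → ℝ}
    (hρ : Continuous ρ) (hρ0 : ∀ t, 0 < ρ t) (hint : ∫ t in (0 : ℝ)..p, ρ t • T t = 0) [CompleteSpace E] :
    2 * π ≤ ∫ t in (0 : ℝ)..p, ‖T' t‖ := by
  by_contra hlt
  rw [not_le] at hlt
  have hTc : Continuous T := continuous_iff_continuousAt.2 fun t => (hT t).continuousAt
  set ℓ : ℝ → ℝ := fun t => ∫ s in (0 : ℝ)..t, ‖T' s‖ with hℓ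
  have hℓc : Continuous ℓ := intervalIntegral.continuous_primitive
      (fun c d => (hc.norm.intervalIntegrable c d)) 0
  have hℓ0 : ℓ 0 = 0 := by simp [hℓ]
  have hLp : 0 ≤ ℓ p := intervalIntegral.integral_nonneg hp.le fun t _ => norm_nonneg _
  obtain ⟨s, hs, hsℓ⟩ : ∃ s ∈ Icc (0 : ℝ) p, ℓ s = ℓ p / 2 := by
    have := intermediate_value_Icc hp.le hℓc.continuousOn
    exact this ⟨by rw [hℓ0]; positivity, by linarith⟩
  have hadd : ∀ a b : ℝ, ∫ t in a..b, ‖T' t‖ = ℓ b - ℓ a := by
    intro a b
    simp only [hℓ]
    rw [intervalIntegral.integral_interval_sub_left (hc.norm.intervalIntegrable _ _)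
      (hc.norm.intervalIntegrable _ _)]
  have hlen : ∀ t ∈ Icc (0 : ℝ) p, angle (T 0) (T t) + angle (T t) (T s) < π := by
    intro t ht
    rcases le_total t s with hts | hts
    · have h2 := angle_le_length hT hc h1 ht.1
      have h3 := angle_le_length hT hc h1 hts
      rw [hadd] at h2 h3
      have : ℓ p < 2 * π := hlt
      linarith
    · have h2 := angle_le_length hT hc h1 ht.2
      have h3 := angle_le_length hT hc h1 hts
      rw [hadd] at h2 h3
      rw [hper] at h2
      have : ℓ p < 2 * π := hlt
      rw [angle_comm (T 0), angle_comm (T t) (T s)]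
      linarith
  have hpos : ∀ t ∈ Icc (0 : ℝ) p, 0 < ⟪T 0 + T s, T t⟫ := by
    intro t ht
    have h2 := hlen t ht
    have h3 := angle_nonneg (T 0) (T t)
    have h4 := angle_nonneg (T t) (T s)
    have h5 : Real.cos (π - angle (T t) (T s)) < Real.cos (angle (T 0) (T t)) := by
      apply Real.cos_lt_cos_of_nonneg_of_le_pi h3 (by linarith) (by linarith)
    rw [Real.cos_pi_sub] at h5
    rw [inner_add_left, real_inner_comm (T t) (T s)]
    have h6 := cos_angle_mul_norm_mul_norm (T 0) (T t)
    have h7 := cos_angle_mul_norm_mul_norm (T t) (T s)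
    rw [h1, h1, mul_one, mul_one] at h6 h7
    linarith
  have h8 : ∫ t in (0 : ℝ)..p, ρ t * ⟪T 0 + T s, T t⟫ = 0 := by
    have hi : IntervalIntegrable (fun t => ρ t • T t) volume 0 p :=
      (hρ.smul hTc).intervalIntegrable _ _
    have h9 := ContinuousLinearMap.intervalIntegral_comp_comm
      (innerSL ℝ (T 0 + T s) : E →L[ℝ] ℝ) hi
    rw [hint, map_zero] at h9
    refine Eq.trans (intervalIntegral.integral_congr fun t _ => ?_) h9
    simp only [innerSL_apply_apply, inner_smul_right]
  have h9 : 0 < ∫ t in (0 : ℝ)..p, ρ t * ⟪T 0 + T s, T t⟫ := by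
    apply intervalIntegral.intervalIntegral_pos_of_pos_on
    · apply Continuous.intervalIntegrable
      fun_prop
    · intro t ht
      exact mul_pos (hρ0 t) (hpos t ⟨ht.1.le, ht.2.le⟩)
    · exact hp
  linarith

end Pool.Agent.TH548.Fenchel
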