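import Pool.Agent.TH548.Mu
import Pool.Agent.TH548.Fenchel

set_option autoImplicit false

open scoped ContDiff Real Topology RealInnerProductSpace
open Set Filter MeasureTheory InnerProductSpace

namespace Pool.Agent.TH548.Frame

open Pool.Agent.TH548.Mu

/-- The Frenet frame `e_i(t)` of a curve: the Gram-Schmidt orthonormalisation of
`γ'(t), …, γ⁽ⁿ⁾(t)` (numbered from `0`). -/
noncomputable def frenet {n : ℕ} (γ : ℝ → EuclideanSpace ℝ (Fin n)) (i : Fin n) (t : ℝ) :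
    EuclideanSpace ℝ (Fin n) :=
  gramSchmidtNormed ℝ (fun j : Fin n => iteratedDeriv ((j : ℕ) + 1) γ t) i

/-- The curvatures of a curve: the product `⟨de_i/ds, e_{i+1}⟩`, where `s` is the arc length,
`ds = ‖γ'(t)‖ dt`. -/
noncomputable def curvature {n : ℕ} (γ : ℝ → EuclideanSpace ℝ (Fin n)) (i : Fin (n - 1)) (t : ℝ) :
    ℝ :=
  ⟪deriv (frenet γ ⟨i, by omega⟩) t, frenet γ ⟨i + 1, by omega⟩ t⟫ / ‖deriv γ t‖

/-- The length of the Frenet frame `∫ (κ₁² + … + κ_{n-1}²)^{1/2} ds`. -/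
noncomputable def frameLength {n : ℕ} (γ : ℝ → EuclideanSpace ℝ (Fin n)) : ℝ :=
  ∫ t in (0 : ℝ)..2 * π, √(∑ i, curvature γ i t ^ 2) * ‖deriv γ t‖

section GS

variable {n : ℕ} {E : Type} [NormedAddCommGroup E] [InnerProductSpace ℝ E]

lemma contDiff_gs {v : ℝ → Fin n → E} (hv : ∀ j, ContDiff ℝ ∞ fun t => v t j)
    (li : ∀ t, LinearIndependent ℝ (v t)) (i : Fin n) :
    ContDiff ℝ ∞ fun t => gramSchmidt ℝ (v t) i := by
  induction i using WellFoundedLT.induction with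
  | ind i ih =>
    have e : (fun t => gramSchmidt ℝ (v t) i) = fun t => v t i - ∑ j ∈ Finset.Iio i,
        (⟪gramSchmidt ℝ (v t) j, v t i⟫ / ‖gramSchmidt ℝ (v t) j‖ ^ 2) •
          gramSchmidt ℝ (v t) j := by
      funext t
      rw [gramSchmidt_def]
      congr 1
      refine Finset.sum_congr rfl fun j _ => ?_
      rw [Submodule.starProjection_singleton]
      rfl
    rw [e]
    refine (hv i).sub (ContDiff.sum fun j hj => ?_)
    have hg := ih j (Finset.mem_Iio.1 hj)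
    refine ContDiff.smul (ContDiff.div (hg.inner ℝ (hv i)) (hg.norm_sq ℝ) fun t => ?_) hg
    exact pow_ne_zero 2 (norm_ne_zero_iff.2 (gramSchmidt_ne_zero j (li t)))

lemma contDiff_gsn {v : ℝ → Fin n → E} (hv : ∀ j, ContDiff ℝ ∞ fun t => v t j)
    (li : ∀ t, LinearIndependent ℝ (v t)) (i : Fin n) :
    ContDiff ℝ ∞ fun t => gramSchmidtNormed ℝ (v t) i := by
  unfold gramSchmidtNormed
  have hg := contDiff_gs hv li i
  refine ContDiff.smul ?_ hg
  refine ContDiff.inv ?_ fun t => ?_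
  · exact hg.norm ℝ fun t => gramSchmidt_ne_zero i (li t)
  · exact norm_ne_zero_iff.2 (gramSchmidt_ne_zero i (li t))

/-- The inner product with the Gram-Schmidt vector of the same index. -/
lemma inner_gs_self (v : Fin n → E) (i : Fin n) :
    ⟪gramSchmidt ℝ v i, v i⟫ = ‖gramSchmidt ℝ v i‖ ^ 2 := by
  conv_lhs => rw [gramSchmidt_def'' ℝ v i]
  rw [inner_add_right, inner_sum, Finset.sum_eq_zero, add_zero, real_inner_self_eq_norm_sq]
  intro j hj
  rw [inner_smul_right, gramSchmidt_orthogonal ℝ v (Finset.mem_Iio.1 hj).ne', mul_zero]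

lemma gs_zero (h0 : 0 < n) (v : Fin n → E) : gramSchmidt ℝ v ⟨0, h0⟩ = v ⟨0, h0⟩ := by
  rw [gramSchmidt_def]
  have : (Finset.Iio (⟨0, h0⟩ : Fin n)) = ∅ := by
    ext j
    simp only [Finset.mem_Iio, Finset.notMem_empty, iff_false]
    intro h
    exact absurd (Fin.lt_def.1 h) (by simp)
  rw [this]
  simp

lemma gs_one (h1 : 1 < n) (v : Fin n → E) : v ⟨1, h1⟩ = gramSchmidt ℝ v ⟨1, h1⟩ +
    (⟪v ⟨0, by omega⟩, v ⟨1, h1⟩⟫ / ‖v ⟨0, by omega⟩‖ ^ 2) • v ⟨0, by omega⟩ := by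
  conv_lhs => rw [gramSchmidt_def'' ℝ v ⟨1, h1⟩]
  have : (Finset.Iio (⟨1, h1⟩ : Fin n)) = {⟨0, by omega⟩} := by
    ext j
    simp only [Finset.mem_Iio, Finset.mem_singleton]
    rw [Fin.lt_def, Fin.ext_iff]
    show (j : ℕ) < 1 ↔ (j : ℕ) = 0
    omega
  rw [this, Finset.sum_singleton, gs_zero]
  rfl

variable {v : ℝ → Fin n → E}

/-- The derivative of the unit tangent vector. -/
lemma deriv_tangent (h1 : 1 < n) (li : ∀ t, LinearIndependent ℝ (v t))
    (hd : ∀ t, HasDerivAt (fun t => v t ⟨0, by omega⟩) (v t ⟨1, h1⟩) t)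
    (t : ℝ) : HasDerivAt (fun t => gramSchmidtNormed ℝ (v t) ⟨0, by omega⟩)
      (‖v t ⟨0, by omega⟩‖⁻¹ • gramSchmidt ℝ (v t) ⟨1, h1⟩) t := by
  have hne : ∀ t, v t ⟨0, by omega⟩ ≠ 0 := fun t => (li t).ne_zero _
  have e : (fun t => gramSchmidtNormed ℝ (v t) ⟨0, by omega⟩) =
      fun t => ‖v t ⟨0, by omega⟩‖⁻¹ • v t ⟨0, by omega⟩ := by
    funext t
    unfold gramSchmidtNormed
    rw [gs_zero]
    rfl
  have hn : DifferentiableAt ℝ (fun t => ‖v t ⟨0, by omega⟩‖⁻¹) t :=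
    ((hd t).differentiableAt.norm ℝ (hne t)).inv (norm_ne_zero_iff.2 (hne t))
  obtain ⟨φ', hφ⟩ : ∃ φ', HasDerivAt (fun t => ‖v t ⟨0, by omega⟩‖⁻¹) φ' t := ⟨_, hn.hasDerivAt⟩
  have h2 := hφ.smul (hd t)
  rw [e]
  set D : E := ‖v t ⟨0, by omega⟩‖⁻¹ • v t ⟨1, h1⟩ + φ' • v t ⟨0, by omega⟩ with hD
  -- the derivative is orthogonal to the tangent
  have h3 : ⟪D, v t ⟨0, by omega⟩⟫ = 0 := by
    have h4 : HasDerivAt (fun t => ⟪‖v t ⟨0, by omega⟩‖⁻¹ • v t ⟨0, by omega⟩,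
        ‖v t ⟨0, by omega⟩‖⁻¹ • v t ⟨0, by omega⟩⟫) (⟪‖v t ⟨0, by omega⟩‖⁻¹ • v t ⟨0, by omega⟩, D⟫
          + ⟪D, ‖v t ⟨0, by omega⟩‖⁻¹ • v t ⟨0, by omega⟩⟫) t := h2.inner ℝ h2
    have h5 : (fun t => ⟪‖v t ⟨0, by omega⟩‖⁻¹ • v t ⟨0, by omega⟩,
        ‖v t ⟨0, by omega⟩‖⁻¹ • v t ⟨0, by omega⟩⟫) = fun _ => (1 : ℝ) := by
      funext t
      rw [real_inner_self_eq_norm_sq, norm_smul, norm_inv, norm_norm,
        inv_mul_cancel₀ (norm_ne_zero_iff.2 (hne t))]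
      norm_num
    rw [h5] at h4
    have h6 := h4.unique (hasDerivAt_const t (1 : ℝ))
    rw [real_inner_comm D, ← two_mul, inner_smul_right] at h6
    have h7 : ‖v t ⟨0, by omega⟩‖⁻¹ ≠ 0 := inv_ne_zero (norm_ne_zero_iff.2 (hne t))
    have h8 := (mul_eq_zero.1 h6).resolve_left two_ne_zero
    exact (mul_eq_zero.1 h8).resolve_left h7
  have h4 : D = ‖v t ⟨0, by omega⟩‖⁻¹ • gramSchmidt ℝ (v t) ⟨1, h1⟩ := by
    have h5 := gs_one h1 (v t)
    set g1 := gramSchmidt ℝ (v t) ⟨1, h1⟩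
    set v0 := v t ⟨0, by omega⟩
    set φ := ‖v0‖⁻¹
    set c := ⟪v0, v t ⟨1, h1⟩⟫ / ‖v0‖ ^ 2
    have h6 : D = φ • g1 + (φ * c + φ') • v0 := by
      rw [hD, h5]
      module
    have h7 : ⟪g1, v0⟫ = 0 := gramSchmidt_inv_triangular ℝ (v t) (Fin.lt_def.2 (by simp))
    rw [h6, inner_add_left, inner_smul_left, inner_smul_left, h7, mul_zero, zero_add,
      real_inner_self_eq_norm_sq] at h3
    have h8 : ‖v0‖ ^ 2 ≠ 0 := pow_ne_zero 2 (norm_ne_zero_iff.2 (hne t))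
    have h9 : φ * c + φ' = 0 := (mul_eq_zero.1 h3).resolve_right h8
    rw [h6, h9, zero_smul, add_zero]
  rw [← h4]
  exact h2

/-- The second curvature does not vanish. -/
lemma inner_second (h2 : 2 < n) (hv : ∀ j, ContDiff ℝ ∞ fun t => v t j)
    (li : ∀ t, LinearIndependent ℝ (v t))
    (hd : ∀ t, HasDerivAt (fun t => v t ⟨0, by omega⟩) (v t ⟨1, by omega⟩) t)
    (hd1 : ∀ t, HasDerivAt (fun t => v t ⟨1, by omega⟩) (v t ⟨2, h2⟩) t) (t : ℝ) :
    ⟪deriv (fun t => gramSchmidtNormed ℝ (v t) ⟨1, by omega⟩) t,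
      gramSchmidtNormed ℝ (v t) ⟨2, h2⟩⟫ ≠ 0 := by
  have hne : ∀ t, v t ⟨0, by omega⟩ ≠ 0 := fun t => (li t).ne_zero _
  have hg1 : Differentiable ℝ fun t => gramSchmidt ℝ (v t) ⟨1, by omega⟩ :=
    (contDiff_gs hv li _).differentiable (by simp)
  have hgne : ∀ t, gramSchmidt ℝ (v t) ⟨1, by omega⟩ ≠ 0 := fun t => gramSchmidt_ne_zero _ (li t)
  have hψ : DifferentiableAt ℝ (fun t => ‖gramSchmidt ℝ (v t) ⟨1, by omega⟩‖⁻¹) t :=
    ((hg1 t).norm ℝ (hgne t)).inv (norm_ne_zero_iff.2 (hgne t))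
  have e1 : (fun t => gramSchmidtNormed ℝ (v t) ⟨1, by omega⟩) =
      fun t => ‖gramSchmidt ℝ (v t) ⟨1, by omega⟩‖⁻¹ • gramSchmidt ℝ (v t) ⟨1, by omega⟩ := rfl
  -- the derivative of the second Gram-Schmidt vector
  have hc : DifferentiableAt ℝ (fun t => ⟪v t ⟨0, by omega⟩, v t ⟨1, by omega⟩⟫ /
      ‖v t ⟨0, by omega⟩‖ ^ 2) t := by
    refine DifferentiableAt.div ((hd t).differentiableAt.inner ℝ (hd1 t).differentiableAt) ?_ ?_
    · exact (hd t).differentiableAt.norm_sq ℝ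
    · exact pow_ne_zero 2 (norm_ne_zero_iff.2 (hne t))
  obtain ⟨c', hc'⟩ := (⟨_, hc.hasDerivAt⟩ : ∃ c', HasDerivAt (fun t =>
    ⟪v t ⟨0, by omega⟩, v t ⟨1, by omega⟩⟫ / ‖v t ⟨0, by omega⟩‖ ^ 2) c' t)
  have e2 : (fun t => gramSchmidt ℝ (v t) ⟨1, by omega⟩) = fun t => v t ⟨1, by omega⟩ -
      (⟪v t ⟨0, by omega⟩, v t ⟨1, by omega⟩⟫ / ‖v t ⟨0, by omega⟩‖ ^ 2) • v t ⟨0, by omega⟩ := by
    funext t
    exact eq_sub_of_add_eq (gs_one (by omega) (v t)).symm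
  have h3 := (hd1 t).sub (hc'.smul (hd t))
  have h4 : deriv (fun t => gramSchmidt ℝ (v t) ⟨1, by omega⟩) t = v t ⟨2, h2⟩ -
      ((⟪v t ⟨0, by omega⟩, v t ⟨1, by omega⟩⟫ / ‖v t ⟨0, by omega⟩‖ ^ 2) • v t ⟨1, by omega⟩ +
        c' • v t ⟨0, by omega⟩) := by
    rw [e2]
    exact h3.deriv
  obtain ⟨ψ', hψ'⟩ := (⟨_, hψ.hasDerivAt⟩ : ∃ ψ', HasDerivAt (fun t =>
    ‖gramSchmidt ℝ (v t) ⟨1, by omega⟩‖⁻¹) ψ' t)
  have h5 : deriv (fun t => gramSchmidtNormed ℝ (v t) ⟨1, by omega⟩) t =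
      ‖gramSchmidt ℝ (v t) ⟨1, by omega⟩‖⁻¹ • deriv (fun t => gramSchmidt ℝ (v t) ⟨1, by omega⟩) t
        + ψ' • gramSchmidt ℝ (v t) ⟨1, by omega⟩ := by
    rw [e1]
    exact (hψ'.smul (hg1 t).hasDerivAt).deriv
  have o1 : ⟪gramSchmidt ℝ (v t) ⟨1, by omega⟩, gramSchmidt ℝ (v t) ⟨2, h2⟩⟫ = 0 :=
    gramSchmidt_orthogonal ℝ (v t) (by simp)
  have o2 : ⟪v t ⟨1, by omega⟩, gramSchmidt ℝ (v t) ⟨2, h2⟩⟫ = 0 := by
    rw [real_inner_comm]
    exact gramSchmidt_inv_triangular ℝ (v t) (Fin.lt_def.2 (by simp))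
  have o3 : ⟪v t ⟨0, by omega⟩, gramSchmidt ℝ (v t) ⟨2, h2⟩⟫ = 0 := by
    rw [real_inner_comm]
    exact gramSchmidt_inv_triangular ℝ (v t) (Fin.lt_def.2 (by simp))
  have o4 : ⟪v t ⟨2, h2⟩, gramSchmidt ℝ (v t) ⟨2, h2⟩⟫ = ‖gramSchmidt ℝ (v t) ⟨2, h2⟩‖ ^ 2 := by
    rw [real_inner_comm]
    exact inner_gs_self (v t) _
  have e3 : gramSchmidtNormed ℝ (v t) ⟨2, h2⟩ =
    ‖gramSchmidt ℝ (v t) ⟨2, h2⟩‖⁻¹ • gramSchmidt ℝ (v t) ⟨2, h2⟩ := rfl
  rw [h5, h4, e3, inner_smul_right, inner_add_left, inner_smul_left, inner_smul_left, o1, mul_zero,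
    add_zero, inner_sub_left, inner_add_left, inner_smul_left, inner_smul_left, o2, o3, mul_zero,
    mul_zero, add_zero, sub_zero, o4]
  have n1 : ‖gramSchmidt ℝ (v t) ⟨2, h2⟩‖ ≠ 0 :=
    norm_ne_zero_iff.2 (gramSchmidt_ne_zero _ (li t))
  have n2 : ‖gramSchmidt ℝ (v t) ⟨1, by omega⟩‖ ≠ 0 := norm_ne_zero_iff.2 (hgne t)
  exact mul_ne_zero (inv_ne_zero n1) (mul_ne_zero (by simpa using n2) (pow_ne_zero 2 n1))

end GS

/-- The length of the Frenet frame of a nondegenerate closed curve is greater than `2π`. -/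
theorem two_pi_lt {n : ℕ} (hn : 3 ≤ n) (γ : ℝ → EuclideanSpace ℝ (Fin n)) (hγ : IsClosedCurve γ)
    (hd : Nondegenerate γ) : 2 * π < frameLength γ := by
  obtain ⟨hs, hp⟩ := hγ
  set v : ℝ → Fin n → EuclideanSpace ℝ (Fin n) := fun t j => iteratedDeriv ((j : ℕ) + 1) γ t
    with hv_def
  have li : ∀ t, LinearIndependent ℝ (v t) := hd
  have hsm : ∀ k : ℕ, ContDiff ℝ ∞ (iteratedDeriv k γ) := by
    intro k
    rw [iteratedDeriv_eq_iterate]
    exact ContDiff.iterate_deriv k hs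
  have hv : ∀ j, ContDiff ℝ ∞ fun t => v t j := fun j => hsm _
  have hder : ∀ k : ℕ, ∀ t, HasDerivAt (iteratedDeriv k γ) (iteratedDeriv (k + 1) γ t) t := by
    intro k t
    rw [iteratedDeriv_succ]
    exact ((hsm k).differentiable (by simp) t).hasDerivAt
  have hd0 : ∀ t, HasDerivAt (fun t => v t ⟨0, by omega⟩) (v t ⟨1, by omega⟩) t :=
    fun t => hder 1 t
  have hd1 : ∀ t, HasDerivAt (fun t => v t ⟨1, by omega⟩) (v t ⟨2, by omega⟩) t :=
    fun t => hder 2 t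
  have hv0 : ∀ t, v t ⟨0, by omega⟩ = deriv γ t := fun t => by
    simp only [hv_def, zero_add, iteratedDeriv_one]
  have hne : ∀ t, deriv γ t ≠ 0 := fun t => by
    rw [← hv0]
    exact (li t).ne_zero _
  have hγ' : Continuous (deriv γ) := by
    have := (hsm 1).continuous
    rwa [iteratedDeriv_one] at this
  -- the tangent vector
  set T : ℝ → EuclideanSpace ℝ (Fin n) := frenet γ ⟨0, by omega⟩ with hT_def
  have hT : ∀ t, HasDerivAt T (deriv T t) t := fun t =>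
    (deriv_tangent (by omega) li hd0 t).differentiableAt.hasDerivAt
  have hT' : ∀ t, deriv T t = ‖deriv γ t‖⁻¹ • gramSchmidt ℝ (v t) ⟨1, by omega⟩ := fun t => by
    rw [← hv0]
    exact (deriv_tangent (by omega) li hd0 t).deriv
  have hTs : ContDiff ℝ ∞ T := contDiff_gsn hv li _
  have hTd : ContDiff ℝ ∞ (deriv T) := (contDiff_infty_iff_deriv.1 hTs).2
  have hTv : ∀ t, T t = ‖deriv γ t‖⁻¹ • deriv γ t := by
    intro t
    show gramSchmidtNormed ℝ (v t) ⟨0, by omega⟩ = _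
    unfold gramSchmidtNormed
    rw [gs_zero, hv0]
    rfl
  have hunit : ∀ t, ‖T t‖ = 1 := fun t => gramSchmidtNormed_unit_length _ (li t)
  have hper' : Function.Periodic (deriv γ) (2 * π) := by
    intro t
    rw [← deriv_comp_add_const]
    congr 1
    funext s
    exact hp s
  have hF := Fenchel.fenchel (T := T) (T' := deriv T) hT hTd.continuous hunit (p := 2 * π)
    (by positivity) (by
      rw [hTv, hTv]
      have := hper' 0
      rw [zero_add] at this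
      rw [this]) (ρ := fun t => ‖deriv γ t‖) hγ'.norm (fun t => norm_pos_iff.2 (hne t)) (by
      have e : ∀ t, ‖deriv γ t‖ • T t = deriv γ t := fun t => by
        rw [hTv, smul_smul, mul_inv_cancel₀ (norm_ne_zero_iff.2 (hne t)), one_smul]
      simp only [e]
      rw [intervalIntegral.integral_deriv_eq_sub (fun t _ => hs.differentiable (by simp) t)
        (hγ'.intervalIntegrable _ _)]
      have := hp 0
      rw [zero_add] at this
      rw [this, sub_self])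
  refine hF.trans_lt ?_
  -- pointwise comparison
  have hlt : ∀ t, ‖deriv T t‖ < √(∑ i, curvature γ i t ^ 2) * ‖deriv γ t‖ := by
    intro t
    have hn0 : 0 < ‖deriv γ t‖ := norm_pos_iff.2 (hne t)
    have k0 : curvature γ ⟨0, by omega⟩ t * ‖deriv γ t‖ = ‖deriv T t‖ := by
      unfold curvature
      rw [div_mul_cancel₀ _ hn0.ne']
      show ⟪deriv T t, gramSchmidtNormed ℝ (v t) ⟨1, by omega⟩⟫ = _
      rw [hT']
      set g := gramSchmidt ℝ (v t) ⟨1, by omega⟩ with hg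
      have e : gramSchmidtNormed ℝ (v t) ⟨1, by omega⟩ = ‖g‖⁻¹ • g := rfl
      have hg0 : ‖g‖ ≠ 0 := norm_ne_zero_iff.2 (gramSchmidt_ne_zero _ (li t))
      rw [e, inner_smul_left, inner_smul_right, real_inner_self_eq_norm_sq, norm_smul, norm_inv,
        norm_norm]
      simp only [RCLike.conj_to_real]
      field_simp
    have k1 : curvature γ ⟨1, by omega⟩ t ≠ 0 := by
      unfold curvature
      refine div_ne_zero ?_ hn0.ne'
      exact inner_second (by omega) hv li hd0 hd1 t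
    have h0 : 0 ≤ curvature γ ⟨0, by omega⟩ t := by
      by_contra hneg
      rw [not_le] at hneg
      have := mul_neg_of_neg_of_pos hneg hn0
      rw [k0] at this
      exact absurd this (not_lt.2 (norm_nonneg _))
    rw [← k0]
    refine mul_lt_mul_of_pos_right ?_ hn0
    apply Real.lt_sqrt_of_sq_lt
    have hsub : ({⟨0, by omega⟩, ⟨1, by omega⟩} : Finset (Fin (n - 1))) ⊆ Finset.univ :=
      Finset.subset_univ _
    have h2 := Finset.sum_le_sum_of_subset_of_nonneg (f := fun i => curvature γ i t ^ 2) hsub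
      fun i _ _ => sq_nonneg _
    rw [Finset.sum_pair (by simp)] at h2
    have h3 : 0 < curvature γ ⟨1, by omega⟩ t ^ 2 := by positivity
    linarith
  unfold frameLength
  have hcont : Continuous fun t => √(∑ i, curvature γ i t ^ 2) * ‖deriv γ t‖ := by
    refine Continuous.mul ?_ hγ'.norm
    refine Real.continuous_sqrt.comp ?_
    refine continuous_finsetSum _ fun i _ => Continuous.pow ?_ 2
    unfold curvature
    refine Continuous.div ?_ hγ'.norm fun t => norm_ne_zero_iff.2 (hne t)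
    refine Continuous.inner ?_ ?_
    · have h := contDiff_gsn hv li ⟨i, by omega⟩
      exact (contDiff_infty_iff_deriv.1 h).2.continuous
    · exact (contDiff_gsn hv li ⟨i + 1, by omega⟩).continuous
  apply intervalIntegral.integral_lt_integral_of_continuousOn_of_le_of_exists_lt
    (by positivity) hTd.continuous.norm.continuousOn hcont.continuousOn
  · intro t _
    exact (hlt t).le
  · exact ⟨0, ⟨le_rfl, by positivity⟩, hlt 0⟩

end Pool.Agent.TH548.Frame
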