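import Mathlib

set_option autoImplicit false

open scoped ContDiff Real

namespace Pool.Agent.TH548.Mu

/-- The unit circle in the first two coordinates of `ℝⁿ`, traversed `m` times:
`c_m(t) = (cos mt, sin mt, 0, …, 0)`. -/
noncomputable def circ (n m : ℕ) (t : ℝ) : EuclideanSpace ℝ (Fin n) :=
  WithLp.toLp 2 fun i : Fin n =>
    if (i : ℕ) = 0 then Real.cos (m * t) else if (i : ℕ) = 1 then Real.sin (m * t) else 0

/-- A smooth closed curve in `ℝⁿ`: a smooth `2π`-periodic map on the line. -/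
def IsClosedCurve {n : ℕ} (γ : ℝ → EuclideanSpace ℝ (Fin n)) : Prop :=
  ContDiff ℝ ∞ γ ∧ Function.Periodic γ (2 * π)

/-- The curve is nondegenerate: the first `n` derivatives are linearly independent at each
point. -/
def Nondegenerate {n : ℕ} (γ : ℝ → EuclideanSpace ℝ (Fin n)) : Prop :=
  ∀ t, LinearIndependent ℝ fun i : Fin n => iteratedDeriv ((i : ℕ) + 1) γ t

/-- Every `C^∞`-neighbourhood of `c_m` contains a nondegenerate closed curve. -/
def Perturbable (n m : ℕ) : Prop :=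
  ∀ (N : ℕ) (ε : ℝ), 0 < ε → ∃ γ : ℝ → EuclideanSpace ℝ (Fin n),
    IsClosedCurve γ ∧ Nondegenerate γ ∧
      ∀ k ≤ N, ∀ t, ‖iteratedDeriv k γ t - iteratedDeriv k (circ n m) t‖ < ε

/-! ### Curves with finitely many modes -/

/-- The curve with amplitude `Z i k` of the mode `k` in the `i`-th coordinate. -/
noncomputable def mc {n : ℕ} (S : Finset ℕ) (Z : Fin n → ℕ → ℂ) (t : ℝ) :
    EuclideanSpace ℝ (Fin n) :=
  WithLp.toLp 2 fun i => ∑ k ∈ S, (Z i k * Complex.exp (Complex.I * k * t)).re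

lemma hasDerivAt_mode (z : ℂ) (k : ℕ) (t : ℝ) :
    HasDerivAt (fun t : ℝ => (z * Complex.exp (Complex.I * k * t)).re)
      ((Complex.I * k * z) * Complex.exp (Complex.I * k * t)).re t := by
  have h1 : HasDerivAt (fun t : ℝ => z * Complex.exp (Complex.I * k * t))
      (z * (Complex.exp (Complex.I * k * t) * (Complex.I * k * 1))) t := by
    refine HasDerivAt.const_mul z ?_
    refine HasDerivAt.cexp ?_
    exact (hasDerivAt_id (t : ℝ)).ofReal_comp.const_mul (Complex.I * k)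
  have h2 := (Complex.reCLM.hasFDerivAt.comp_hasDerivAt t h1)
  have e : ((Complex.I * k * z) * Complex.exp (Complex.I * k * t)).re
      = Complex.reCLM (z * (Complex.exp (Complex.I * k * t) * (Complex.I * k * 1))) := by
    show _ = (z * (Complex.exp (Complex.I * k * t) * (Complex.I * k * 1))).re
    congr 1
    ring
  rw [e]
  exact h2

lemma hasDerivAt_toLp {n : ℕ} {f : ℝ → Fin n → ℝ} {f' : Fin n → ℝ} {t : ℝ}
    (h : ∀ i, HasDerivAt (fun t => f t i) (f' i) t) :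
    HasDerivAt (fun t => (WithLp.toLp 2 (f t) : EuclideanSpace ℝ (Fin n))) (WithLp.toLp 2 f') t :=
  ((PiLp.continuousLinearEquiv 2 ℝ
    (fun _ : Fin n => ℝ)).symm.toContinuousLinearMap.hasFDerivAt).comp_hasDerivAt t
    (hasDerivAt_pi.2 h)

lemma hasDerivAt_mc {n : ℕ} (S : Finset ℕ) (Z : Fin n → ℕ → ℂ) (t : ℝ) :
    HasDerivAt (mc S Z) (mc S (fun i k => Complex.I * k * Z i k) t) t := by
  refine hasDerivAt_toLp fun i => ?_
  show HasDerivAt (fun t : ℝ => ∑ k ∈ S, (Z i k * Complex.exp (Complex.I * k * t)).re) _ t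
  exact HasDerivAt.fun_sum fun k _ => hasDerivAt_mode (Z i k) k t

lemma deriv_mc {n : ℕ} (S : Finset ℕ) (Z : Fin n → ℕ → ℂ) :
    deriv (mc S Z) = mc S (fun i k => Complex.I * k * Z i k) :=
  funext fun t => (hasDerivAt_mc S Z t).deriv

lemma iteratedDeriv_mc {n : ℕ} (S : Finset ℕ) (m : ℕ) : ∀ (Z : Fin n → ℕ → ℂ),
    iteratedDeriv m (mc S Z) = mc S (fun i k => (Complex.I * k) ^ m * Z i k) := by
  induction m with
  | zero => intro Z; simp
  | succ m ih =>
    intro Z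
    rw [iteratedDeriv_succ', deriv_mc, ih]
    congr 1
    funext i k
    ring

lemma contDiff_mc {n : ℕ} (S : Finset ℕ) (Z : Fin n → ℕ → ℂ) : ContDiff ℝ ∞ (mc S Z) := by
  rw [contDiff_euclidean]
  intro i
  show ContDiff ℝ ∞ (fun t : ℝ => ∑ k ∈ S, (Z i k * Complex.exp (Complex.I * k * t)).re)
  refine ContDiff.sum fun k _ => ?_
  have h1 : ContDiff ℝ ∞ (fun t : ℝ => Z i k * Complex.exp (Complex.I * k * t)) :=
    contDiff_const.mul (ContDiff.cexp (contDiff_const.mul Complex.ofRealCLM.contDiff))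
  exact Complex.reCLM.contDiff.comp h1

lemma periodic_mc {n : ℕ} (S : Finset ℕ) (Z : Fin n → ℕ → ℂ) :
    Function.Periodic (mc S Z) (2 * π) := by
  intro t
  unfold mc
  congr 1
  funext i
  refine Finset.sum_congr rfl fun k _ => ?_
  congr 2
  rw [Complex.exp_eq_exp_iff_exists_int]
  refine ⟨k, ?_⟩
  push_cast
  ring

lemma closed_mc {n : ℕ} (S : Finset ℕ) (Z : Fin n → ℕ → ℂ) : IsClosedCurve (mc S Z) :=
  ⟨contDiff_mc S Z, periodic_mc S Z⟩

lemma norm_le_sum {n : ℕ} (x : EuclideanSpace ℝ (Fin n)) : ‖x‖ ≤ ∑ i, |x i| := by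
  have h : x = ∑ i, x i • EuclideanSpace.single i (1 : ℝ) := by
    ext j
    simp [Pi.single_apply]
  calc ‖x‖ = ‖∑ i, x i • EuclideanSpace.single i (1 : ℝ)‖ := by rw [← h]
    _ ≤ ∑ i, ‖x i • EuclideanSpace.single i (1 : ℝ)‖ := norm_sum_le _ _
    _ = ∑ i, |x i| := by
      refine Finset.sum_congr rfl fun i _ => ?_
      rw [norm_smul, PiLp.norm_single]
      simp

lemma norm_mc_le {n : ℕ} (S : Finset ℕ) (Z : Fin n → ℕ → ℂ) (t : ℝ) :
    ‖mc S Z t‖ ≤ ∑ i, ∑ k ∈ S, ‖Z i k‖ := by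
  refine (norm_le_sum _).trans ?_
  refine Finset.sum_le_sum fun i _ => ?_
  show |∑ k ∈ S, (Z i k * Complex.exp (Complex.I * k * t)).re| ≤ _
  refine (Finset.abs_sum_le_sum_abs _ _).trans ?_
  refine Finset.sum_le_sum fun k _ => ?_
  refine (Complex.abs_re_le_norm _).trans ?_
  rw [norm_mul, Complex.norm_exp]
  simp

lemma mc_sub {n : ℕ} (S : Finset ℕ) (Z Z' : Fin n → ℕ → ℂ) (t : ℝ) :
    mc S Z t - mc S Z' t = mc S (fun i k => Z i k - Z' i k) t := by
  ext i
  simp only [mc, PiLp.sub_apply]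
  rw [← Finset.sum_sub_distrib]
  refine Finset.sum_congr rfl fun k _ => ?_
  rw [sub_mul, Complex.sub_re]

/-- If `Z₀ + δ Y` is a nondegenerate curve for all `δ > 0`, the curve `Z₀` is a limit of
nondegenerate curves. -/
lemma approx {n : ℕ} (S : Finset ℕ) (Z₀ Y : Fin n → ℕ → ℂ)
    (h : ∀ δ : ℝ, 0 < δ → Nondegenerate (mc S fun i k => Z₀ i k + δ * Y i k))
    (N : ℕ) (ε : ℝ) (hε : 0 < ε) : ∃ γ : ℝ → EuclideanSpace ℝ (Fin n),
    IsClosedCurve γ ∧ Nondegenerate γ ∧
      ∀ k ≤ N, ∀ t, ‖iteratedDeriv k γ t - iteratedDeriv k (mc S Z₀) t‖ < ε := by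
  set C : ℕ → ℝ := fun m => ∑ i, ∑ k ∈ S, ‖(Complex.I * k) ^ m * Y i k‖ with hC
  have hC0 : ∀ m, 0 ≤ C m := fun m => by
    simp only [hC]
    positivity
  set B : ℝ := ∑ m ∈ Finset.range (N + 1), C m with hB
  have hB0 : 0 ≤ B := Finset.sum_nonneg fun m _ => hC0 m
  have hCB : ∀ m ≤ N, C m ≤ B := fun m hm =>
    Finset.single_le_sum (f := C) (fun m _ => hC0 m) (Finset.mem_range.2 (by omega))
  refine ⟨mc S fun i k => Z₀ i k + (ε / (B + 1) : ℝ) * Y i k, closed_mc _ _,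
    h _ (by positivity), ?_⟩
  intro m hm t
  rw [iteratedDeriv_mc, iteratedDeriv_mc, mc_sub]
  refine (norm_mc_le _ _ _).trans_lt ?_
  have e : ∀ i : Fin n, ∀ k : ℕ,
      ‖(Complex.I * k) ^ m * (Z₀ i k + (ε / (B + 1) : ℝ) * Y i k) - (Complex.I * k) ^ m * Z₀ i k‖
        = ε / (B + 1) * ‖(Complex.I * k) ^ m * Y i k‖ := by
    intro i k
    have : (Complex.I * k) ^ m * (Z₀ i k + (ε / (B + 1) : ℝ) * Y i k)
        - (Complex.I * k) ^ m * Z₀ i k = ((ε / (B + 1) : ℝ) : ℂ) * ((Complex.I * k) ^ m * Y i k) := by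
      ring
    rw [this, norm_mul, Complex.norm_real, Real.norm_of_nonneg (by positivity)]
  simp only [e, ← Finset.mul_sum]
  have h1 : (∑ i, ∑ k ∈ S, ‖(Complex.I * k) ^ m * Y i k‖) ≤ B := hCB m hm
  calc ε / (B + 1) * ∑ i, ∑ k ∈ S, ‖(Complex.I * k) ^ m * Y i k‖
      ≤ ε / (B + 1) * B := by gcongr
    _ < ε := by
      rw [div_mul_eq_mul_div, div_lt_iff₀ (by positivity)]
      nlinarith

/-- A criterion for linear independence of the derivatives. -/
lemma li_of {n : ℕ} (v : Fin n → EuclideanSpace ℝ (Fin n))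
    (h : ∀ l : Fin n → ℝ, (∀ i : Fin n, ∑ j, l j * v i j = 0) → l = 0) :
    LinearIndependent ℝ v := by
  set A : Matrix (Fin n) (Fin n) ℝ := Matrix.of fun i j => v i j with hA
  have hinj : Function.Injective A.mulVec := by
    intro x y hxy
    have : x - y = 0 := by
      apply h
      intro i
      have h2 : A.mulVec (x - y) = 0 := by
        rw [Matrix.mulVec_sub, hxy, sub_self]
      have h3 := congrFun h2 i
      simp only [Matrix.mulVec, dotProduct, Pi.zero_apply, hA, Matrix.of_apply] at h3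
      rw [← h3]
      exact Finset.sum_congr rfl fun j _ => mul_comm _ _
    exact sub_eq_zero.1 this
  have hu : IsUnit A := Matrix.mulVec_injective_iff_isUnit.1 hinj
  have hr := Matrix.linearIndependent_rows_iff_isUnit.2 hu
  have h4 := hr.map' (WithLp.linearEquiv 2 ℝ (Fin n → ℝ)).symm.toLinearMap
    (LinearEquiv.ker _)
  exact h4

/-! ### The algebraic core -/

/-- The weighted sum of amplitudes of a linear combination of coordinates. -/
noncomputable def wt {n : ℕ} (Z : Fin n → ℕ → ℂ) (l : Fin n → ℝ) (t : ℝ) (k : ℕ) : ℂ :=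
  (∑ j, (l j : ℂ) * Z j k) * Complex.exp (Complex.I * k * t)

lemma sum_iteratedDeriv {n : ℕ} (S : Finset ℕ) (Z : Fin n → ℕ → ℂ) (l : Fin n → ℝ) (t : ℝ)
    (m : ℕ) : ∑ j, l j * (iteratedDeriv m (mc S Z) t) j =
      ∑ k ∈ S, ((Complex.I * k) ^ m * wt Z l t k).re := by
  rw [iteratedDeriv_mc]
  have : ∀ j, (mc S (fun i k => (Complex.I * k) ^ m * Z i k) t) j =
      ∑ k ∈ S, ((Complex.I * k) ^ m * Z j k * Complex.exp (Complex.I * k * t)).re := fun j => rfl
  simp only [this, Finset.mul_sum]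
  rw [Finset.sum_comm]
  refine Finset.sum_congr rfl fun k _ => ?_
  unfold wt
  rw [Finset.sum_mul, Finset.mul_sum, Complex.re_sum]
  refine Finset.sum_congr rfl fun j _ => ?_
  rw [← Complex.re_ofReal_mul]
  congr 1
  ring

lemma pow_even (k p : ℕ) : (Complex.I * k) ^ (2 * p) = (((-(k : ℝ) ^ 2) ^ p : ℝ) : ℂ) := by
  rw [pow_mul, mul_pow, Complex.I_sq]
  push_cast
  ring

/-- Conditions for the even and the odd derivatives. -/
lemma cond_even {n : ℕ} (S : Finset ℕ) (Z : Fin n → ℕ → ℂ) (l : Fin n → ℝ) (t : ℝ)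
    (h : ∀ i : Fin n, ∑ j, l j * (iteratedDeriv ((i : ℕ) + 1) (mc S Z) t) j = 0) (p q : ℕ)
    (hp : 2 * p + q + 1 ≤ n) :
    ∑ k ∈ S, (-(k : ℝ) ^ 2) ^ p * ((Complex.I * k) ^ (q + 1) * wt Z l t k).re = 0 := by
  have h1 := h ⟨2 * p + q, by omega⟩
  rw [sum_iteratedDeriv] at h1
  rw [← h1]
  refine Finset.sum_congr rfl fun k _ => ?_
  show _ = ((Complex.I * k) ^ (2 * p + q + 1) * wt Z l t k).re
  rw [← Complex.re_ofReal_mul, ← pow_even]
  congr 1
  ring

/-- The vanishing conditions on amplitudes. -/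
def Cond (n : ℕ) (S : Finset ℕ) (w : ℕ → ℂ) : Prop :=
  ∀ (P : Polynomial ℝ) (q : ℕ), 2 * P.natDegree + q + 1 ≤ n →
    ∑ k ∈ S, P.eval (-(k : ℝ) ^ 2) * ((Complex.I * k) ^ (q + 1) * w k).re = 0

/-- Conditions for polynomials in the second derivative. -/
lemma cond_poly {n : ℕ} (S : Finset ℕ) (Z : Fin n → ℕ → ℂ) (l : Fin n → ℝ) (t : ℝ)
    (h : ∀ i : Fin n, ∑ j, l j * (iteratedDeriv ((i : ℕ) + 1) (mc S Z) t) j = 0) :
    Cond n S (wt Z l t) := by
  intro P q hP
  have h1 : ∀ k : ℕ, P.eval (-(k : ℝ) ^ 2) * ((Complex.I * k) ^ (q + 1) * wt Z l t k).re =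
      ∑ p ∈ Finset.range (P.natDegree + 1), P.coeff p * ((-(k : ℝ) ^ 2) ^ p *
        ((Complex.I * k) ^ (q + 1) * wt Z l t k).re) := by
    intro k
    rw [Polynomial.eval_eq_sum_range, Finset.sum_mul]
    exact Finset.sum_congr rfl fun p _ => by ring
  simp only [h1]
  rw [Finset.sum_comm]
  refine Finset.sum_eq_zero fun p hp => ?_
  rw [← Finset.mul_sum, cond_even S Z l t h p q, mul_zero]
  have := Finset.mem_range.1 hp
  omega

lemma eval_prod (S : Finset ℕ) (x : ℝ) :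
    (∏ k ∈ S, (Polynomial.X + Polynomial.C ((k : ℝ) ^ 2))).eval x = ∏ k ∈ S, (x + (k : ℝ) ^ 2) := by
  rw [Polynomial.eval_prod]
  simp

lemma natDegree_prod (S : Finset ℕ) :
    (∏ k ∈ S, (Polynomial.X + Polynomial.C ((k : ℝ) ^ 2))).natDegree = S.card := by
  rw [Polynomial.natDegree_prod_of_monic _ _ fun k _ => Polynomial.monic_X_add_C _]
  simp only [Polynomial.natDegree_X_add_C, Finset.sum_const, smul_eq_mul, mul_one]

/-- The value at `-k²` of `∏ (X + l²)`. -/
noncomputable def Lv (S : Finset ℕ) (k : ℕ) : ℝ := ∏ l ∈ S, (-(k : ℝ) ^ 2 + (l : ℝ) ^ 2)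

lemma Lv_eq_zero {S : Finset ℕ} {k : ℕ} (h : k ∈ S) : Lv S k = 0 :=
  Finset.prod_eq_zero h (by ring)

lemma Lv_ne_zero {S : Finset ℕ} {k : ℕ} (h : k ∉ S) : Lv S k ≠ 0 := by
  refine Finset.prod_ne_zero_iff.2 fun l hl => ?_
  intro h0
  have h1 : (l : ℝ) ^ 2 = (k : ℝ) ^ 2 := by linarith
  have h2 : (l : ℝ) = k := by
    rcases sq_eq_sq_iff_eq_or_eq_neg.1 h1 with h3 | h3
    · exact h3
    · have : (0 : ℝ) ≤ l := Nat.cast_nonneg l
      have : (0 : ℝ) ≤ k := Nat.cast_nonneg k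
      linarith
  have h3 : l = k := by exact_mod_cast h2
  exact h (h3 ▸ hl)

lemma Cond.prod {n : ℕ} {S : Finset ℕ} {w : ℕ → ℂ} (h : Cond n S w) (T : Finset ℕ) (q : ℕ)
    (hT : 2 * T.card + q + 1 ≤ n) :
    ∑ k ∈ S, Lv T k * ((Complex.I * k) ^ (q + 1) * w k).re = 0 := by
  have := h (∏ k ∈ T, (Polynomial.X + Polynomial.C ((k : ℝ) ^ 2))) q (by rwa [natDegree_prod])
  simp only [eval_prod] at this
  exact this

lemma Cond.isolate {n : ℕ} {S : Finset ℕ} {w : ℕ → ℂ} (h : Cond n S w) (hS : 2 * S.card ≤ n)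
    {κ : ℕ} (hκ : κ ∈ S) (h0 : κ ≠ 0) : w κ = 0 := by
  have hc : 0 < S.card := Finset.card_pos.2 ⟨κ, hκ⟩
  have hc' := Finset.card_erase_of_mem hκ
  have key : ∀ q : ℕ, q ≤ 1 → ((Complex.I * κ) ^ (q + 1) * w κ).re = 0 := by
    intro q hq
    have h1 := h.prod (S.erase κ) q (by omega)
    rw [Finset.sum_eq_single κ] at h1
    · exact (mul_eq_zero.1 h1).resolve_left (Lv_ne_zero (Finset.notMem_erase κ S))
    · intro k hk hne
      rw [Lv_eq_zero (Finset.mem_erase.2 ⟨hne, hk⟩), zero_mul]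
    · intro hn
      exact absurd hκ hn
  have h1 := key 0 (by omega)
  have h2 := key 1 (by omega)
  have hk : (κ : ℝ) ≠ 0 := by exact_mod_cast h0
  apply Complex.ext
  · have : ((Complex.I * κ) ^ (1 + 1) * w κ).re = -((κ : ℝ) ^ 2 * (w κ).re) := by
      have e : (Complex.I * κ) ^ (1 + 1) = ((-(κ : ℝ) ^ 2 : ℝ) : ℂ) := by
        have := pow_even κ 1
        simpa using this
      rw [e, Complex.re_ofReal_mul]
      ring
    rw [this] at h2
    have h3 : (κ : ℝ) ^ 2 * (w κ).re = 0 := by linarith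
    exact (mul_eq_zero.1 h3).resolve_left (pow_ne_zero 2 hk)
  · have : ((Complex.I * κ) ^ (0 + 1) * w κ).re = -((κ : ℝ) * (w κ).im) := by
      rw [zero_add, pow_one, Complex.mul_re]
      simp
    rw [this] at h1
    have h3 : (κ : ℝ) * (w κ).im = 0 := by linarith
    exact (mul_eq_zero.1 h3).resolve_left hk

lemma Cond.restrict {n : ℕ} {S S' : Finset ℕ} {w : ℕ → ℂ} (h : Cond n S w) (hS : S' ⊆ S)
    (hw : ∀ k ∈ S, k ∉ S' → w k = 0) : Cond n S' w := by
  intro P q hP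
  rw [← h P q hP]
  refine Finset.sum_subset hS fun k hk hk' => ?_
  rw [hw k hk hk']
  simp

/-! ### The three dimensional nondegenerate curve -/

/-- The amplitudes of `g = (1 + b cos 5t) (cos 7t, sin 7t, 1 + a cos 5t)` with `a = 81/40`,
`b = -2/a = -80/81`. -/
noncomputable def ga (q : Fin 3) (k : ℕ) : ℂ :=
  if q = 0 then (if k = 7 then 1 else if k = 12 then -40/81 else if k = 2 then -40/81 else 0)
  else if q = 1 then Complex.I *
    (if k = 7 then -1 else if k = 12 then 40/81 else if k = 2 then 40/81 else 0)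
  else (if k = 5 then 81/40 - 80/81 else if k = 10 then -1 else 0)

/-- The five modes. -/
def T5 : Finset ℕ := {2, 5, 7, 10, 12}

lemma exp_mode (k : ℕ) (t : ℝ) : Complex.exp (Complex.I * k * t)
    = (Real.cos (k * t) : ℂ) + (Real.sin (k * t) : ℂ) * Complex.I := by
  have : Complex.I * k * t = ((k * t : ℝ) : ℂ) * Complex.I := by
    push_cast
    ring
  rw [this, Complex.exp_mul_I, Complex.ofReal_cos, Complex.ofReal_sin]

lemma mode_re0 (x y : ℝ) (k : ℕ) (t : ℝ) :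
    ((Complex.I * k) ^ 0 * (((x : ℂ) + y * Complex.I) * Complex.exp (Complex.I * k * t))).re
      = x * Real.cos (k * t) - y * Real.sin (k * t) := by
  rw [exp_mode]
  simp only [pow_zero, one_mul, Complex.mul_re, Complex.mul_im, Complex.add_re, Complex.add_im,
    Complex.I_re, Complex.I_im, Complex.ofReal_re, Complex.ofReal_im]
  ring

lemma mode_re1 (x y : ℝ) (k : ℕ) (t : ℝ) :
    ((Complex.I * k) ^ 1 * (((x : ℂ) + y * Complex.I) * Complex.exp (Complex.I * k * t))).re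
      = -(k : ℝ) * (x * Real.sin (k * t) + y * Real.cos (k * t)) := by
  rw [exp_mode]
  simp only [pow_one, Complex.mul_re, Complex.mul_im, Complex.add_re, Complex.add_im,
    Complex.I_re, Complex.I_im, Complex.ofReal_re, Complex.ofReal_im, Complex.natCast_re,
    Complex.natCast_im]
  ring

lemma mode_re2 (x y : ℝ) (k : ℕ) (t : ℝ) :
    ((Complex.I * k) ^ 2 * (((x : ℂ) + y * Complex.I) * Complex.exp (Complex.I * k * t))).re
      = -(k : ℝ) ^ 2 * (x * Real.cos (k * t) - y * Real.sin (k * t)) := by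
  have e : (Complex.I * k) ^ 2 = ((-(k : ℝ) ^ 2 : ℝ) : ℂ) := by
    have := pow_even k 1
    simpa using this
  rw [e, Complex.re_ofReal_mul, exp_mode]
  simp only [Complex.mul_re, Complex.mul_im, Complex.add_re, Complex.add_im,
    Complex.I_re, Complex.I_im, Complex.ofReal_re, Complex.ofReal_im]
  ring

lemma gcore (l0 l1 l2 t : ℝ) (h : ∀ q : ℕ, q < 3 → ∑ k ∈ T5, ((Complex.I * k) ^ q *
    (((l0 : ℂ) * ga 0 k + l1 * ga 1 k + l2 * ga 2 k) * Complex.exp (Complex.I * k * t))).re = 0) :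
    l0 = 0 ∧ l1 = 0 ∧ l2 = 0 := by
  have c12 : Real.cos (12 * t) = Real.cos (7 * t) * Real.cos (5 * t)
      - Real.sin (7 * t) * Real.sin (5 * t) := by
    rw [← Real.cos_add]; ring_nf
  have s12 : Real.sin (12 * t) = Real.sin (7 * t) * Real.cos (5 * t)
      + Real.cos (7 * t) * Real.sin (5 * t) := by
    rw [← Real.sin_add]; ring_nf
  have c2 : Real.cos (2 * t) = Real.cos (7 * t) * Real.cos (5 * t)
      + Real.sin (7 * t) * Real.sin (5 * t) := by
    rw [← Real.cos_sub]; ring_nf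
  have s2 : Real.sin (2 * t) = Real.sin (7 * t) * Real.cos (5 * t)
      - Real.cos (7 * t) * Real.sin (5 * t) := by
    rw [← Real.sin_sub]; ring_nf
  have c10 : Real.cos (10 * t) = Real.cos (5 * t) ^ 2 - Real.sin (5 * t) ^ 2 := by
    rw [show 10 * t = 5 * t + 5 * t by ring, Real.cos_add]; ring
  have s10 : Real.sin (10 * t) = 2 * Real.sin (5 * t) * Real.cos (5 * t) := by
    rw [show 10 * t = 5 * t + 5 * t by ring, Real.sin_add]; ring
  have p5 := Real.sin_sq_add_cos_sq (5 * t)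
  have p7 := Real.sin_sq_add_cos_sq (7 * t)
  have b5 := Real.cos_le_one (5 * t)
  have b5' := Real.neg_one_le_cos (5 * t)
  set A : ℕ → ℂ := fun k => (l0 : ℂ) * ga 0 k + l1 * ga 1 k + l2 * ga 2 k with hA
  have a2 : A 2 = ((-40 / 81 * l0 : ℝ) : ℂ) + ((40 / 81 * l1 : ℝ) : ℂ) * Complex.I := by
    simp [hA, ga]; ring
  have a5 : A 5 = (((81 / 40 - 80 / 81) * l2 : ℝ) : ℂ) + ((0 : ℝ) : ℂ) * Complex.I := by
    simp [hA, ga]; ring
  have a7 : A 7 = ((l0 : ℝ) : ℂ) + ((-l1 : ℝ) : ℂ) * Complex.I := by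
    simp [hA, ga]
  have a10 : A 10 = ((-l2 : ℝ) : ℂ) + ((0 : ℝ) : ℂ) * Complex.I := by
    simp [hA, ga]
  have a12 : A 12 = ((-40 / 81 * l0 : ℝ) : ℂ) + ((40 / 81 * l1 : ℝ) : ℂ) * Complex.I := by
    simp [hA, ga]; ring
  have hs : ∀ f : ℕ → ℝ, ∑ k ∈ T5, f k = f 2 + (f 5 + (f 7 + (f 10 + f 12))) := by
    intro f
    simp [T5]
  have h0 := h 0 (by norm_num)
  have h1 := h 1 (by norm_num)
  have h2 := h 2 (by norm_num)
  have e2 : A 2 = (l0 : ℂ) * ga 0 2 + l1 * ga 1 2 + l2 * ga 2 2 := rfl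
  have e5 : A 5 = (l0 : ℂ) * ga 0 5 + l1 * ga 1 5 + l2 * ga 2 5 := rfl
  have e7 : A 7 = (l0 : ℂ) * ga 0 7 + l1 * ga 1 7 + l2 * ga 2 7 := rfl
  have e10 : A 10 = (l0 : ℂ) * ga 0 10 + l1 * ga 1 10 + l2 * ga 2 10 := rfl
  have e12 : A 12 = (l0 : ℂ) * ga 0 12 + l1 * ga 1 12 + l2 * ga 2 12 := rfl
  rw [hs] at h0 h1 h2
  rw [← e2, ← e5, ← e7, ← e10, ← e12, a2, a5, a7, a10, a12] at h0 h1 h2
  rw [mode_re0, mode_re0, mode_re0, mode_re0, mode_re0] at h0
  rw [mode_re1, mode_re1, mode_re1, mode_re1, mode_re1] at h1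
  rw [mode_re2, mode_re2, mode_re2, mode_re2, mode_re2] at h2
  push_cast at h0 h1 h2
  rw [c12, s12, c2, s2, c10, s10] at h0 h1 h2
  set C5 := Real.cos (5 * t)
  set S5 := Real.sin (5 * t)
  set C7 := Real.cos (7 * t)
  set S7 := Real.sin (7 * t)
  have hr : 1 - 80 / 81 * C5 ≠ 0 := by nlinarith
  have H0 : l0 * C7 + l1 * S7 + l2 * (1 + 81 / 40 * C5) = 0 := by
    have : (1 - 80 / 81 * C5) * (l0 * C7 + l1 * S7 + l2 * (1 + 81 / 40 * C5)) = 0 := by
      linear_combination h0 - l2 * p5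
    exact (mul_eq_zero.1 this).resolve_left hr
  have H1 : -7 * l0 * S7 + 7 * l1 * C7 - 5 * (81 / 40) * l2 * S5 = 0 := by
    have : (1 - 80 / 81 * C5) * (-7 * l0 * S7 + 7 * l1 * C7 - 5 * (81 / 40) * l2 * S5) = 0 := by
      linear_combination h1 - 5 * (80 / 81) * S5 * H0
    exact (mul_eq_zero.1 this).resolve_left hr
  have H2 : -49 * l0 * C7 - 49 * l1 * S7 - 25 * (81 / 40) * l2 * C5 = 0 := by
    have : (1 - 80 / 81 * C5) * (-49 * l0 * C7 - 49 * l1 * S7 - 25 * (81 / 40) * l2 * C5) = 0 := by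
      linear_combination h2 - 25 * (80 / 81) * C5 * H0 - 10 * (80 / 81) * S5 * H1
    exact (mul_eq_zero.1 this).resolve_left hr
  have hl2 : l2 = 0 := by
    have h3 : l2 * (49 + 24 * (81 / 40) * C5) = 0 := by linear_combination H2 + 49 * H0
    refine (mul_eq_zero.1 h3).resolve_right ?_
    nlinarith
  subst hl2
  refine ⟨?_, ?_, rfl⟩
  · linear_combination C7 * H0 - S7 / 7 * H1 - l0 * p7
  · linear_combination S7 * H0 + C7 / 7 * H1 - l1 * p7

/-! ### Circle coordinates -/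

/-- The frequencies of the circles. -/
def kap (l : ℕ) : ℕ := if l = 0 then 1 else 12 + l

lemma kap_zero : kap 0 = 1 := rfl

lemma kap_inj : Function.Injective kap := by
  intro a b h
  unfold kap at h
  split_ifs at h <;> omega

lemma kap_ne_zero (l : ℕ) : kap l ≠ 0 := by
  unfold kap
  split_ifs <;> omega

lemma kap_notMem (l : ℕ) : kap l ∉ T5 := by
  unfold kap T5
  simp only [Finset.mem_insert, Finset.mem_singleton]
  split_ifs <;> omega

/-- The modes of the circles. -/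
def SK (j : ℕ) : Finset ℕ := (Finset.range j).image kap

lemma card_SK (j : ℕ) : (SK j).card = j := by
  unfold SK
  rw [Finset.card_image_of_injective _ kap_inj, Finset.card_range]

lemma mem_SK {j l : ℕ} (h : l < j) : kap l ∈ SK j :=
  Finset.mem_image_of_mem _ (Finset.mem_range.2 h)

lemma disj_SK (j : ℕ) : Disjoint (SK j) T5 := by
  rw [Finset.disjoint_left]
  intro k hk
  obtain ⟨l, -, rfl⟩ := Finset.mem_image.1 hk
  exact kap_notMem l

/-- The amplitude of the cosine and of the sine. -/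
noncomputable def ua (b : Fin 2) : ℂ := if b = 0 then 1 else -Complex.I

/-- The amplitudes of a product of circles with frequencies `kap l` and radii `d l`. -/
noncomputable def Zc (j : ℕ) (d : ℕ → ℂ) (i : Fin (j * 2)) (k : ℕ) : ℂ :=
  if k = kap i.divNat then ua i.modNat * d i.divNat else 0

lemma divNat_prod {j : ℕ} (a : Fin j) (b : Fin 2) : (finProdFinEquiv (a, b)).divNat = a :=
  congrArg Prod.fst (finProdFinEquiv.symm_apply_apply (a, b))

lemma modNat_prod {j : ℕ} (a : Fin j) (b : Fin 2) : (finProdFinEquiv (a, b)).modNat = b :=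
  congrArg Prod.snd (finProdFinEquiv.symm_apply_apply (a, b))

lemma sum_Zc (j : ℕ) (d : ℕ → ℂ) (l : Fin (j * 2) → ℝ) (a : Fin j) :
    ∑ i, (l i : ℂ) * Zc j d i (kap a) =
      ((l (finProdFinEquiv (a, 0)) : ℂ) - l (finProdFinEquiv (a, 1)) * Complex.I) * d a := by
  rw [← finProdFinEquiv.sum_comp, Fintype.sum_prod_type, Finset.sum_eq_single a]
  · rw [Fin.sum_univ_two]
    simp only [Zc, divNat_prod, modNat_prod, if_true, ua]
    simp
    ring
  · intro b _ hb
    rw [Fin.sum_univ_two]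
    have : ¬ (kap (a : ℕ) = kap (b : ℕ)) := fun h => hb (Fin.ext (kap_inj h).symm)
    simp only [Zc, divNat_prod, if_neg this]
    simp
  · intro h
    exact absurd (Finset.mem_univ a) h

lemma Zc_T5 (j : ℕ) (d : ℕ → ℂ) (i : Fin (j * 2)) {k : ℕ} (hk : k ∈ T5) : Zc j d i k = 0 := by
  unfold Zc
  rw [if_neg]
  rintro rfl
  exact kap_notMem _ hk

lemma eq_zero_of_circle {j : ℕ} (d : ℕ → ℂ) (hd : ∀ a < j, d a ≠ 0) (l : Fin (j * 2) → ℝ)
    (h : ∀ a : Fin j, ∑ i, (l i : ℂ) * Zc j d i (kap a) = 0) : l = 0 := by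
  funext i
  obtain ⟨⟨a, b⟩, rfl⟩ := finProdFinEquiv.surjective i
  have h1 := h a
  rw [sum_Zc] at h1
  have h2 := (mul_eq_zero.1 h1).resolve_right (hd a a.2)
  have h3 := congrArg Complex.re h2
  have h4 := congrArg Complex.im h2
  simp at h3 h4
  match b with
  | 0 => exact h3
  | 1 => exact h4

/-- Radii. -/
noncomputable def rad (x y : ℂ) (l : ℕ) : ℂ := if l = 0 then x else y

lemma rad_ne {δ : ℝ} (hδ : 0 < δ) (l : ℕ) : rad 1 δ l ≠ 0 := by
  unfold rad
  split_ifs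
  · exact one_ne_zero
  · exact_mod_cast hδ.ne'

lemma Zc_add (j : ℕ) (δ : ℝ) (i : Fin (j * 2)) (k : ℕ) :
    Zc j (rad 1 0) i k + δ * Zc j (rad 0 1) i k = Zc j (rad 1 δ) i k := by
  unfold Zc rad
  split_ifs <;> ring

lemma sum_Zc_exp (j : ℕ) (S : Finset ℕ) (hS : SK j ⊆ S) (i : Fin (j * 2)) (t : ℝ) :
    ∑ k ∈ S, (Zc j (rad 1 0) i k * Complex.exp (Complex.I * k * t)).re =
      if (i : ℕ) = 0 then Real.cos (((1 : ℕ) : ℝ) * t) else if (i : ℕ) = 1 then
        Real.sin (((1 : ℕ) : ℝ) * t) else 0 := by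
  rw [Finset.sum_eq_single (kap i.divNat)]
  · have hd : ((i.divNat : Fin j) : ℕ) = (i : ℕ) / 2 := rfl
    have hm : ((i.modNat : Fin 2) : ℕ) = (i : ℕ) % 2 := rfl
    unfold Zc
    rw [if_pos rfl]
    by_cases h0 : (i : ℕ) = 0
    · have h1 : ((i.divNat : Fin j) : ℕ) = 0 := by omega
      have h2 : i.modNat = (0 : Fin 2) := Fin.ext (by rw [hm]; simp [h0])
      have e1 : ua 0 * rad 1 0 0 = ((1 : ℝ) : ℂ) + ((0 : ℝ) : ℂ) * Complex.I := by
        simp [ua, rad]
      have e2 := mode_re0 1 0 1 t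
      rw [pow_zero, one_mul, one_mul, zero_mul, sub_zero] at e2
      rw [if_pos h0, h1, h2, kap_zero, e1]
      exact e2
    · by_cases h1 : (i : ℕ) = 1
      · have h3 : ((i.divNat : Fin j) : ℕ) = 0 := by omega
        have h2 : i.modNat = (1 : Fin 2) := Fin.ext (by rw [hm]; simp [h1])
        have e1 : ua 1 * rad 1 0 0 = ((0 : ℝ) : ℂ) + ((-1 : ℝ) : ℂ) * Complex.I := by
          simp [ua, rad]
        have e2 := mode_re0 0 (-1) 1 t
        rw [pow_zero, one_mul, zero_mul, zero_sub, neg_one_mul, neg_neg] at e2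
        rw [if_neg h0, if_pos h1, h3, h2, kap_zero, e1]
        exact e2
      · rw [if_neg h0, if_neg h1]
        have h3 : ((i.divNat : Fin j) : ℕ) ≠ 0 := by omega
        have h4 : rad 1 0 ((i.divNat : Fin j) : ℕ) = 0 := if_neg h3
        rw [h4, mul_zero, zero_mul, Complex.zero_re]
  · intro k _ hk
    unfold Zc
    rw [if_neg hk]
    simp
  · intro h
    exact absurd (hS (mem_SK i.divNat.2)) h

/-! ### Even dimensions -/

lemma nondeg_even (j : ℕ) (δ : ℝ) (hδ : 0 < δ) : Nondegenerate (mc (SK j) (Zc j (rad 1 δ))) := by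
  intro t
  apply li_of
  intro l h
  have c := cond_poly _ _ l t h
  refine eq_zero_of_circle (rad 1 δ) (fun a _ => rad_ne hδ a) l fun a => ?_
  have h1 := c.isolate (by rw [card_SK]; omega) (mem_SK a.2) (kap_ne_zero a)
  exact (mul_eq_zero.1 h1).resolve_right (Complex.exp_ne_zero _)

lemma circ_even (j : ℕ) : circ (j * 2) 1 = mc (SK j) (Zc j (rad 1 0)) := by
  funext t
  unfold circ mc
  congr 1
  funext i
  rw [sum_Zc_exp j (SK j) (Finset.Subset.refl _) i t]

theorem perturbable_even (j : ℕ) : Perturbable (j * 2) 1 := by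
  intro N ε hε
  rw [circ_even]
  refine approx (SK j) (Zc j (rad 1 0)) (Zc j (rad 0 1)) (fun δ hδ => ?_) N ε hε
  simp only [Zc_add]
  exact nondeg_even j δ hδ

/-! ### Odd dimensions -/

/-- The amplitudes of the last three coordinates. -/
noncomputable def Zu (j : ℕ) (q : Fin 3) (k : ℕ) : ℂ :=
  ga q k / (Complex.I * k * Lv (SK j) k)

/-- The amplitudes of the curve in odd dimension. -/
noncomputable def Zo (j : ℕ) (δ : ℝ) : Fin (j * 2 + 3) → ℕ → ℂ :=
  Fin.append (Zc j (rad 1 δ)) fun q k => δ * Zu j q k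

lemma sum_Zo (j : ℕ) (δ : ℝ) (l : Fin (j * 2 + 3) → ℝ) (k : ℕ) :
    ∑ i, (l i : ℂ) * Zo j δ i k =
      (∑ i : Fin (j * 2), (l (Fin.castAdd 3 i) : ℂ) * Zc j (rad 1 δ) i k) +
        ∑ q : Fin 3, (l (Fin.natAdd (j * 2) q) : ℂ) * (δ * Zu j q k) := by
  rw [Fin.sum_univ_add]
  simp only [Zo, Fin.append_left, Fin.append_right]

lemma ga_notMem {k : ℕ} (hk : k ∉ T5) (q : Fin 3) : ga q k = 0 := by
  simp only [T5, Finset.mem_insert, Finset.mem_singleton, not_or] at hk
  obtain ⟨h2, h5, h7, h10, h12⟩ := hk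
  unfold ga
  simp [h2, h5, h7, h10, h12]

lemma nondeg_odd (j : ℕ) (δ : ℝ) (hδ : 0 < δ) :
    Nondegenerate (mc (SK j ∪ T5) (Zo j δ)) := by
  intro t
  apply li_of
  intro l h
  have c := cond_poly _ _ l t h
  have hδ' : (δ : ℂ) ≠ 0 := by exact_mod_cast hδ.ne'
  -- the last three coefficients vanish
  have hg := gcore (l (Fin.natAdd (j * 2) 0)) (l (Fin.natAdd (j * 2) 1))
    (l (Fin.natAdd (j * 2) 2)) t (by
      intro q hq
      have h1 := c.prod (SK j) q (by rw [card_SK]; omega)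
      rw [Finset.sum_union (disj_SK j), Finset.sum_eq_zero (s := SK j) fun k hk => by
        rw [Lv_eq_zero hk, zero_mul], zero_add] at h1
      have h2 : ∀ k ∈ T5, Lv (SK j) k * ((Complex.I * k) ^ (q + 1) * wt (Zo j δ) l t k).re
          = δ * ((Complex.I * k) ^ q * (((l (Fin.natAdd (j * 2) 0) : ℂ) * ga 0 k +
            l (Fin.natAdd (j * 2) 1) * ga 1 k + l (Fin.natAdd (j * 2) 2) * ga 2 k) *
              Complex.exp (Complex.I * k * t))).re := by
        intro k hk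
        have hk0 : (k : ℂ) ≠ 0 := by
          have : k ≠ 0 := by
            rintro rfl
            simp [T5] at hk
          exact_mod_cast this
        have hL : (Lv (SK j) k : ℂ) ≠ 0 := by
          have := Lv_ne_zero (S := SK j) (k := k)
            (fun h' => Finset.disjoint_left.1 (disj_SK j) h' hk)
          exact_mod_cast this
        rw [← Complex.re_ofReal_mul, ← Complex.re_ofReal_mul]
        congr 1
        unfold wt
        rw [sum_Zo, Finset.sum_eq_zero (s := (Finset.univ : Finset (Fin (j * 2)))) fun i _ => by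
          rw [Zc_T5 j _ i hk, mul_zero], zero_add, Fin.sum_univ_three]
        unfold Zu
        field_simp
        ring
      rw [Finset.sum_congr rfl h2, ← Finset.mul_sum] at h1
      exact (mul_eq_zero.1 h1).resolve_left hδ.ne')
  have hlast : ∀ q : Fin 3, l (Fin.natAdd (j * 2) q) = 0 := by
    intro q
    match q with
    | 0 => exact hg.1
    | 1 => exact hg.2.1
    | 2 => exact hg.2.2
  have hw : ∀ k, wt (Zo j δ) l t k = (∑ i : Fin (j * 2), (l (Fin.castAdd 3 i) : ℂ) *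
      Zc j (rad 1 δ) i k) * Complex.exp (Complex.I * k * t) := by
    intro k
    unfold wt
    rw [sum_Zo]
    congr 1
    rw [Finset.sum_eq_zero (s := (Finset.univ : Finset (Fin 3))) fun q _ => by
      rw [hlast q]; simp, add_zero]
  have c' : Cond (j * 2 + 3) (SK j) (wt (Zo j δ) l t) := by
    refine c.restrict Finset.subset_union_left fun k hk hk' => ?_
    have hk5 : k ∈ T5 := (Finset.mem_union.1 hk).resolve_left hk'
    rw [hw, Finset.sum_eq_zero fun i _ => by rw [Zc_T5 j _ i hk5, mul_zero], zero_mul]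
  have hcirc : (fun i : Fin (j * 2) => l (Fin.castAdd 3 i)) = 0 := by
    refine eq_zero_of_circle (rad 1 δ) (fun a _ => rad_ne hδ a) _ fun a => ?_
    have h1 := c'.isolate (by rw [card_SK]; omega) (mem_SK a.2) (kap_ne_zero a)
    rw [hw] at h1
    exact (mul_eq_zero.1 h1).resolve_right (Complex.exp_ne_zero _)
  funext i
  refine Fin.addCases (fun i => ?_) (fun q => ?_) i
  · exact congrFun hcirc i
  · exact hlast q

/-- The unperturbed amplitudes and the perturbation. -/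
lemma Zo_eq (j : ℕ) (δ : ℝ) (i : Fin (j * 2 + 3)) (k : ℕ) :
    (Fin.append (Zc j (rad 1 0)) (fun _ _ => 0) : Fin (j * 2 + 3) → ℕ → ℂ) i k +
      δ * (Fin.append (Zc j (rad 0 1)) (Zu j) : Fin (j * 2 + 3) → ℕ → ℂ) i k = Zo j δ i k := by
  unfold Zo
  refine Fin.addCases (fun i => ?_) (fun q => ?_) i
  · simp only [Fin.append_left]
    exact Zc_add j δ i k
  · simp only [Fin.append_right]
    ring

lemma circ_odd (j : ℕ) (hj : 0 < j) : circ (j * 2 + 3) 1 = mc (SK j ∪ T5)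
    (Fin.append (Zc j (rad 1 0)) (fun _ _ => 0) : Fin (j * 2 + 3) → ℕ → ℂ) := by
  funext t
  unfold circ mc
  congr 1
  funext i
  refine Fin.addCases (fun i => ?_) (fun q => ?_) i
  · simp only [Fin.append_left, Fin.val_castAdd]
    rw [sum_Zc_exp j _ Finset.subset_union_left i t]
  · simp only [Fin.append_right, Fin.val_natAdd]
    rw [if_neg (by omega), if_neg (by omega)]
    simp

theorem perturbable_odd (j : ℕ) (hj : 0 < j) : Perturbable (j * 2 + 3) 1 := by
  intro N ε hε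
  rw [circ_odd j hj]
  refine approx _ _ (Fin.append (Zc j (rad 0 1)) (Zu j) : Fin (j * 2 + 3) → ℕ → ℂ)
    (fun δ hδ => ?_) N ε hε
  simp only [Zo_eq]
  exact nondeg_odd j δ hδ

theorem perturbable (n : ℕ) (hn : 4 ≤ n) : Perturbable n 1 := by
  obtain ⟨j, hj | hj⟩ := Nat.even_or_odd' n
  · have h := perturbable_even j
    rwa [show j * 2 = n by omega] at h
  · have h := perturbable_odd (j - 1) (by omega)
    rwa [show (j - 1) * 2 + 3 = n by omega] at h

/-- `μ(n) = 1` for all `n ≥ 4`. -/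
theorem isLeast_one (n : ℕ) (hn : 4 ≤ n) : IsLeast {m : ℕ | 1 ≤ m ∧ Perturbable n m} 1 :=
  ⟨⟨le_rfl, perturbable n hn⟩, fun _ hm => hm.1⟩

end Pool.Agent.TH548.Mu
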